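import Pool.Agent.helper84.QI.Spec

set_option autoImplicit false

namespace Pool.Agent.QI

theorem QUO : QUO_stmt := by
  intro G _ a b h E _ hE
  constructor
  · have h1 : (Subgroup.closure ({a, b} : Set G)).map (QuotientGroup.mk' E) = ⊤ := by
      rw [h.gen]
      exact Subgroup.map_top_of_surjective _ (QuotientGroup.mk'_surjective E)
    rw [MonoidHom.map_closure, Set.image_pair] at h1
    exact h1
  · by_contra hc
    rw [not_infinite_iff_finite] at hc
    haveI : Finite E := hE
    have h1 : Finite G := Finite.of_equiv _ (Subgroup.groupEquivQuotientProdSubgroup (s := E)).symm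
    exact h.inf.not_finite h1
  · refine (h.fin.image (QuotientGroup.mk' E)).subset ?_
    intro q hq
    obtain ⟨g, rfl⟩ := QuotientGroup.mk'_surjective E q
    refine ⟨g, ?_, rfl⟩
    have h2 : (Subgroup.closure ({a, g⁻¹ * b * g} : Set G)).map (QuotientGroup.mk' E) =
        Subgroup.closure ({(QuotientGroup.mk a : G ⧸ E),
          (QuotientGroup.mk' E g)⁻¹ * QuotientGroup.mk b * QuotientGroup.mk' E g} : Set (G ⧸ E)) := by
      rw [MonoidHom.map_closure, Set.image_pair]
      rfl
    intro hf
    apply hq
    rw [← h2, Subgroup.coe_map]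
    exact hf.image _

end Pool.Agent.QI
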